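import Mathlib
import Pool.Agent.H20.Oc1
import Pool.Agent.H20.Oc2

set_option autoImplicit false

namespace Pool.Agent.Results.MP_cb2837_co.Quarter

open H20.Oc

theorem result :
    (∀ n : ℕ, ∃ m, ∃ A B C D : Fin m → Finset (Fin n), IsOddCover n m A B C D) ∧
    (∀ n : ℕ, (n / 2) ^ 2 ≤ g n) ∧
    (∀ n : ℕ, 8 ∣ n → g n = (n / 2) ^ 2) ∧
    Filter.Tendsto (fun n : ℕ => (g n : ℝ) / (n : ℝ) ^ 2) Filter.atTop (nhds (1 / 4)) := by
  refine ⟨fun n => ?_, g_lower, ?_, g_lim⟩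
  · obtain ⟨m, _, hm⟩ := upper n n (by omega)
    exact ⟨m, hm⟩
  · rintro n ⟨t, rfl⟩
    refine le_antisymm ?_ (g_lower _)
    have e : 8 * t / 2 = 4 * t := by omega
    rw [e]
    exact g_upper _ t le_rfl

end Pool.Agent.Results.MP_cb2837_co.Quarter
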